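import Mathlib

namespace Pool.Agent.H.MP_0a407b_co
open Finset

variable {V : Type} [Fintype V] [DecidableEq V]

def BF (A : V → V → ℝ) (f g : V → ℝ) : ℝ := ∑ x, ∑ y, A x y * f x * g y

lemma BF_comm {A : V → V → ℝ} (hs : ∀ x y, A x y = A y x) (f g : V → ℝ) :
    BF A f g = BF A g f := by
  unfold BF
  rw [sum_comm]
  exact sum_congr rfl fun x _ => sum_congr rfl fun y _ => by rw [hs]; ring

lemma BF_left (A : V → V → ℝ) (f g h : V → ℝ) (s t : ℝ) :
    BF A (fun x => s * f x + t * g x) h = s * BF A f h + t * BF A g h := by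
  simp only [BF, mul_sum, ← sum_add_distrib]
  exact sum_congr rfl fun x _ => sum_congr rfl fun y _ => by ring

lemma BF_sq {A : V → V → ℝ} (hs : ∀ x y, A x y = A y x) (f g : V → ℝ) (s t : ℝ) :
    BF A (fun x => s * f x + t * g x) (fun x => s * f x + t * g x) =
      s ^ 2 * BF A f f + 2 * s * t * BF A f g + t ^ 2 * BF A g g := by
  rw [BF_left, BF_comm hs f, BF_comm hs g, BF_left, BF_left, BF_comm hs g f]
  ring

def ind (W : Finset V) (x : V) : ℝ := if x ∈ W then 1 else 0

lemma BF_ind (A : V → V → ℝ) (U W : Finset V) :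
    BF A (ind U) (ind W) = ∑ x ∈ U, ∑ y ∈ W, A x y := by
  simp [BF, ind]

lemma round {A : V → V → ℝ} (hs : ∀ x y, A x y = A y x) (h0 : ∀ x, A x x = 0)
    (hp : ∀ x y, 0 ≤ A x y) (h : ℕ) (m : ℕ) : ∀ f : V → ℝ, (∀ x, 0 ≤ f x ∧ f x ≤ 1) →
    ∑ x, f x = h → (univ.filter fun x => f x ≠ 0 ∧ f x ≠ 1).card ≤ m →
    ∃ W : Finset V, W.card = h ∧ BF A (ind W) (ind W) ≤ BF A f f := by
  classical
  induction m with
  | zero =>
    intro f _ hsum hc
    have e : f = ind (univ.filter fun x => f x = 1) := by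
      funext x
      have : x ∉ univ.filter fun x => f x ≠ 0 ∧ f x ≠ 1 := by
        rw [card_eq_zero.1 (Nat.le_zero.1 hc)]; simp
      simp only [mem_filter, mem_univ, true_and, not_and_or, not_not] at this
      rcases this with a | a <;> simp [ind, a]
    refine ⟨univ.filter fun x => f x = 1, ?_, by rw [← e]⟩
    rw [e] at hsum
    simp only [ind, sum_boole, filter_mem_eq_inter, univ_inter] at hsum
    exact_mod_cast hsum
  | succ m ih =>
    intro f hf hsum hc
    by_cases hm : (univ.filter fun x => f x ≠ 0 ∧ f x ≠ 1).card ≤ m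
    · exact ih f hf hsum hm
    obtain ⟨x, hx⟩ := card_pos.1 (show 0 < (univ.filter fun x => f x ≠ 0 ∧ f x ≠ 1).card by omega)
    have hx := (mem_filter.1 hx).2
    obtain ⟨y, hyx, hy⟩ : ∃ y, y ≠ x ∧ f y ≠ 0 ∧ f y ≠ 1 := by
      by_contra hn
      push Not at hn
      rw [← add_sum_erase _ _ (mem_univ x)] at hsum
      have : ∑ y ∈ univ.erase x, f y = ∑ y ∈ univ.erase x, if f y = 1 then (1 : ℝ) else 0 := by
        refine sum_congr rfl fun y hy => ?_
        by_cases a : f y = 0
        · simp [a]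
        · simp [hn y (ne_of_mem_erase hy) a]
      rw [this, sum_boole] at hsum
      generalize ((univ.erase x).filter fun y => f y = 1).card = j at hsum
      have a1 : (j : ℝ) < h := by
        have := lt_of_le_of_ne (hf x).1 hx.1.symm
        linarith
      have a2 : (h : ℝ) < j + 1 := by
        have := lt_of_le_of_ne (hf x).2 hx.2
        linarith
      have a1 : j < h := by exact_mod_cast a1
      have a2 : h < j + 1 := by exact_mod_cast a2
      omega
    have key : ∀ x y, x ≠ y → f x ≠ 0 ∧ f x ≠ 1 → f y ≠ 0 ∧ f y ≠ 1 →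
        BF A f (ind {x}) ≤ BF A f (ind {y}) →
        ∃ W : Finset V, W.card = h ∧ BF A (ind W) (ind W) ≤ BF A f f := by
      intro x y hxy hx hy hL
      obtain ⟨t, t0, t1, t2, t3⟩ : ∃ t, 0 ≤ t ∧ t ≤ 1 - f x ∧ t ≤ f y ∧ (t = 1 - f x ∨ t = f y) :=
        ⟨min (1 - f x) (f y), le_min (by linarith [(hf x).2]) (hf y).1, min_le_left _ _,
          min_le_right _ _, min_choice _ _⟩
      let g : V → ℝ := fun z => 1 * ind {x} z + (-1) * ind {y} z
      have gx : g x = 1 := by simp [g, ind, hxy]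
      have gy : g y = -1 := by simp [g, ind, hxy.symm]
      have gz : ∀ z, z ≠ x → z ≠ y → g z = 0 := fun z a b => by simp [g, ind, a, b]
      obtain ⟨W, w1, w2⟩ := ih (fun z => 1 * f z + t * g z) (fun z => by
        by_cases a : z = x
        · subst a; rw [gx]; constructor <;> linarith [(hf z).1]
        by_cases b : z = y
        · subst b; rw [gy]; constructor <;> linarith [(hf z).2]
        · rw [gz z a b]; simpa using hf z)
        (by simp [g, ind, sum_add_distrib, ← mul_sum, hsum]) (by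
          have sub : ∀ w, (w = x ∨ w = y) → (1 * f w + t * g w = 0 ∨ 1 * f w + t * g w = 1) →
              (univ.filter fun z => 1 * f z + t * g z ≠ 0 ∧ 1 * f z + t * g z ≠ 1).card ≤ m := by
            intro w hw hv
            have : (univ.filter fun z => 1 * f z + t * g z ≠ 0 ∧ 1 * f z + t * g z ≠ 1) ⊆
                (univ.filter fun x => f x ≠ 0 ∧ f x ≠ 1).erase w := by
              intro z hz
              have hz := (mem_filter.1 hz).2
              refine mem_erase.2 ⟨by rintro rfl; tauto, mem_filter.2 ⟨mem_univ _, ?_⟩⟩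
              by_cases a : z = x
              · rwa [a]
              by_cases b : z = y
              · rwa [b]
              · simpa [gz z a b] using hz
            have := card_le_card this
            rw [card_erase_of_mem (mem_filter.2 ⟨mem_univ _, by rcases hw with rfl | rfl <;> assumption⟩)] at this
            omega
          rcases t3 with e | e
          · exact sub x (Or.inl rfl) (Or.inr (by rw [gx, e]; ring))
          · exact sub y (Or.inr rfl) (Or.inl (by rw [gy, e]; ring)))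
      refine ⟨W, w1, w2.trans ?_⟩
      have e1 : BF A f g = BF A f (ind {x}) - BF A f (ind {y}) := by
        rw [BF_comm hs, BF_left, BF_comm hs _ f, BF_comm hs _ f]; ring
      have e2 : BF A g g = -2 * A x y := by
        rw [BF_sq hs]
        simp only [BF_ind, sum_singleton, h0]
        ring
      rw [BF_sq hs, e1, e2]
      nlinarith [mul_nonneg t0 (sub_nonneg.2 hL), mul_nonneg (sq_nonneg t) (hp x y)]
    rcases le_total (BF A f (ind {x})) (BF A f (ind {y})) with a | a
    · exact key x y hyx.symm hx hy a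
    · exact key y x hyx hy hx a

lemma sparse (G : SimpleGraph V) [DecidableRel G.Adj] (η : ℝ) (h0 : 0 ≤ η) (h1 : η ≤ 1) (k : ℕ) :
    ∀ S : Finset V, (∀ s ⊆ S, ¬ G.IsNClique k s) → ∃ U : Finset V, η ^ k * S.card ≤ U.card ∧
      ∀ x ∈ U, ((U.filter (G.Adj x)).card : ℝ) ≤ η * U.card := by
  induction k with
  | zero => exact fun S h => absurd (by simp) (h ∅ (empty_subset _))
  | succ k ih =>
    intro S h
    by_cases hb : ∀ x ∈ S, ((S.filter (G.Adj x)).card : ℝ) ≤ η * S.card
    · exact ⟨S, mul_le_of_le_one_left (by positivity) (pow_le_one₀ h0 h1), hb⟩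
    push Not at hb
    obtain ⟨x, hx, hd⟩ := hb
    obtain ⟨U, a, b⟩ := ih (S.filter (G.Adj x)) fun s hs hc =>
      h (insert x s) (insert_subset hx (hs.trans (filter_subset _ _)))
        (hc.insert fun y hy => (mem_filter.1 (hs hy)).2)
    refine ⟨U, le_trans ?_ a, b⟩
    rw [pow_succ, mul_assoc]
    exact mul_le_mul_of_nonneg_left hd.le (by positivity)

def adj (G : SimpleGraph V) [DecidableRel G.Adj] (x y : V) : ℝ := if G.Adj x y then 1 else 0

lemma edges (G : SimpleGraph V) [DecidableRel G.Adj] (W : Finset V) :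
    BF (adj G) (ind W) (ind W) =
      2 * (({e : Sym2 V | e ∈ G.edgeSet ∧ ∀ v ∈ e, v ∈ W}).ncard : ℝ) := by
  classical
  let G' : SimpleGraph V := SimpleGraph.fromEdgeSet {e : Sym2 V | e ∈ G.edgeSet ∧ ∀ v ∈ e, v ∈ W}
  have e1 : G'.edgeSet = {e : Sym2 V | e ∈ G.edgeSet ∧ ∀ v ∈ e, v ∈ W} := by
    rw [SimpleGraph.edgeSet_fromEdgeSet]
    ext e
    simp only [Set.mem_sdiff, Set.mem_ofPred_eq, and_iff_left_iff_imp]
    exact fun h => G.not_isDiag_of_mem_edgeSet h.1
  have e2 : ∀ x y, G'.Adj x y ↔ G.Adj x y ∧ x ∈ W ∧ y ∈ W := by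
    intro x y
    rw [← SimpleGraph.mem_edgeSet, e1]
    simp
  have := congrArg (Nat.cast (R := ℝ)) G'.two_mul_card_edgeFinset
  push_cast at this
  rw [← Set.ncard_coe_finset, SimpleGraph.coe_edgeFinset] at this
  rw [← e1, this, ← sum_boole, ← univ_product_univ, sum_product, BF]
  refine sum_congr rfl fun x _ => sum_congr rfl fun y _ => ?_
  simp only [e2, adj, ind]
  split_ifs <;> simp_all

lemma main (c : ℝ) (hc : 0 < c) (k : ℕ) : ∃ ε : ℝ, 0 < ε ∧ ∃ N : ℕ, ∀ n : ℕ, N ≤ n →
      ∀ G : SimpleGraph (Fin n),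
        G.edgeSet.ncard = ⌊c * (n : ℝ) ^ 2⌋₊ →
        (∀ W : Finset (Fin n), W.card = n / 2 →
          (1 - ε) * c * ((n : ℝ) / 2) ^ 2 ≤
            (({e : Sym2 (Fin n) | e ∈ G.edgeSet ∧ ∀ v ∈ e, v ∈ W}).ncard : ℝ)) →
        ∃ s : Finset (Fin n), G.IsNClique k s := by
  classical
  obtain ⟨η, h0, h1, h2⟩ : ∃ η : ℝ, 0 < η ∧ η ≤ 1 ∧ η ≤ c :=
    ⟨min 1 c, lt_min one_pos hc, min_le_left _ _, min_le_right _ _⟩
  obtain ⟨N, hN⟩ := exists_nat_ge (4 / c)
  refine ⟨(η ^ k) ^ 2 / 32, by positivity, N + 2, fun n hn G hE hW => ?_⟩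
  by_contra hno
  push Not at hno
  obtain ⟨U, hU, hd⟩ := sparse G η h0.le h1 k univ fun s _ => hno s
  rw [card_univ, Fintype.card_fin] at hU
  have hs : ∀ x y, adj G x y = adj G y x := fun x y => by simp [adj, G.adj_comm]
  have n2 : (2 : ℝ) ≤ n := by exact_mod_cast (show 2 ≤ n by omega)
  have n0 : (0 : ℝ) < n := by linarith
  have cn : 4 ≤ c * (n : ℝ) ^ 2 := by
    have : (N : ℝ) ≤ n := by exact_mod_cast (show N ≤ n by omega)
    have : 4 ≤ c * n := by rw [div_le_iff₀ hc] at hN; nlinarith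
    nlinarith
  obtain ⟨u, hu⟩ : ∃ u : ℝ, u = U.card / n := ⟨_, rfl⟩
  have hu' : (U.card : ℝ) = u * n := by rw [hu]; field_simp
  have u1 : u ≤ 1 := by
    rw [hu, div_le_one n0]
    exact_mod_cast (card_le_univ U).trans_eq (Fintype.card_fin n)
  have u0 : η ^ k ≤ u := by rw [hu, le_div_iff₀ n0]; exact hU
  have ek : 0 < η ^ k := by positivity
  obtain ⟨θ, hθ⟩ : ∃ θ : ℝ, θ = (n / 2 : ℕ) / n := ⟨_, rfl⟩
  have hθ' : ((n / 2 : ℕ) : ℝ) = θ * n := by rw [hθ]; field_simp
  have θ1 : θ ≤ 1 / 2 := by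
    rw [hθ, div_le_iff₀ n0]
    have : ((2 * (n / 2) : ℕ) : ℝ) ≤ n := by exact_mod_cast (show 2 * (n / 2) ≤ n by omega)
    push_cast at this
    linarith
  have θ0 : 1 / 4 ≤ θ := by
    rw [hθ, le_div_iff₀ n0]
    have : (n : ℝ) ≤ ((4 * (n / 2) : ℕ) : ℝ) := by exact_mod_cast (show n ≤ 4 * (n / 2) by omega)
    push_cast at this
    linarith
  have hUU : BF (adj G) (ind U) (ind U) ≤ η * (u * n) ^ 2 := by
    rw [BF_ind, ← hu']
    refine (sum_le_card_nsmul _ _ (η * U.card) fun x hx => ?_).trans_eq (by rw [nsmul_eq_mul]; ring)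
    simpa [adj, sum_boole] using hd x hx
  have hE2 := edges G univ
  simp only [mem_univ, implies_true, and_true, Set.ofPred_mem_eq, hE] at hE2
  have f1 := Nat.floor_le (show 0 ≤ c * (n : ℝ) ^ 2 by positivity)
  have f2 := Nat.lt_floor_add_one (c * (n : ℝ) ^ 2)
  have key : ∀ t : ℝ, t = 1 / 4 ∨ t = -1 / 4 → (1 - (η ^ k) ^ 2 / 32) * c * (n : ℝ) ^ 2 / 2 ≤
      (θ - t * u) ^ 2 * BF (adj G) (ind univ) (ind univ) +
      2 * (θ - t * u) * t * BF (adj G) (ind univ) (ind U) + t ^ 2 * BF (adj G) (ind U) (ind U) := by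
    intro t ht
    obtain ⟨W, w1, w2⟩ := round hs (fun x => by simp [adj]) (fun x y => by unfold adj; positivity)
      (n / 2) _ (fun x => (θ - t * u) * ind univ x + t * ind U x) (fun x => by
        simp only [ind, mem_univ, if_true]
        rcases ht with rfl | rfl <;> split_ifs <;> constructor <;> linarith)
      (by
        simp only [ind, mem_univ, if_true, sum_add_distrib, ← mul_sum, sum_boole, sum_const,
          card_univ, Fintype.card_fin, filter_mem_eq_inter, univ_inter, hu', hθ', nsmul_eq_mul]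
        ring) le_rfl
    rw [BF_sq hs, edges] at w2
    have := hW W w1
    linarith
  generalize BF (adj G) (ind univ) (ind univ) = E at *
  generalize BF (adj G) (ind univ) (ind U) = D at *
  generalize BF (adj G) (ind U) (ind U) = a at *
  obtain ⟨M, hM⟩ : ∃ M, M = c * (n : ℝ) ^ 2 := ⟨_, rfl⟩
  have a1 : a ≤ u ^ 2 * M := by
    rw [hM]; nlinarith [mul_le_mul_of_nonneg_right h2 (sq_nonneg (u * n))]
  have E1 : E ≤ 2 * M := by linarith
  have E2 : 3 / 2 * M ≤ E := by linarith
  have M4 : 4 ≤ M := by linarith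
  have b1 : θ ^ 2 * E ≤ M / 2 := by nlinarith [mul_le_mul θ1 θ1 (by linarith) (by norm_num)]
  have b2 : (η ^ k) ^ 2 * M ≤ u ^ 2 * M := by gcongr
  have b3 : 3 / 2 * (u ^ 2 * M) ≤ u ^ 2 * E := by nlinarith [sq_nonneg u]
  have b4 : 0 < (η ^ k) ^ 2 * M := by positivity
  rcases le_total (D - u * E) 0 with h | h
  · have := key _ (Or.inl rfl)
    rw [mul_assoc, ← hM] at this
    nlinarith [mul_nonneg (show 0 ≤ θ - u / 4 by linarith) (neg_nonneg.2 h)]
  · have := key _ (Or.inr rfl)
    rw [mul_assoc, ← hM] at this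
    nlinarith [mul_nonneg (show 0 ≤ θ + u / 4 by linarith) h]

end Pool.Agent.H.MP_0a407b_co
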